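import Pool.Agent.H62.BalMain

set_option autoImplicit false
open Pool.Agent.H62.Bal

namespace Pool.Agent.Results.MP_bddfa7_gt.SoProd

/-- every slowly oscillating function is bounded outside a bounded set -/
def SoBounded {X : Type*} (𝓔 : Set (Set (X × X))) : Prop :=
  ∀ f : X → ℝ, (∀ E ∈ 𝓔, ∀ ε > 0, Osc 𝓔 f E ε) → BddOff 𝓔 f

theorem result {X Y : Type*} [Nonempty X] [Nonempty Y] (𝓔 : Set (Set (X × X))) (𝓕 : Set (Set (Y × Y)))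
    (hE : IsCoarse 𝓔) (hF : IsCoarse 𝓕) (hX : SoBounded 𝓔) (hY : SoBounded 𝓕) :
    SoBounded {D | ∃ E ∈ 𝓔, ∃ F ∈ 𝓕, D ⊆ tens E F} := fun f hf =>
  main hE.weak hF.weak (P := {D | ∃ E ∈ 𝓔, ∃ F ∈ 𝓕, D ⊆ tens E F})
    (fun E h F h' => ⟨E, h, F, h', subset_rfl⟩) (fun _ h => h) f
    (fun D h => ⟨1, hf D h 1 one_pos⟩)
    (fun g h => hX g fun E h1 ε hε => let ⟨D, a, b⟩ := h E h1; b ε (hf D a ε hε))
    (fun g h => hY g fun E h1 ε hε => let ⟨D, a, b⟩ := h E h1; b ε (hf D a ε hε))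

end Pool.Agent.Results.MP_bddfa7_gt.SoProd
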